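import Mathlib
import Pool.Agent.Helper96.FlowMain

/-!
Numerical certificate: the weighted sum is negative for m = 169 and q = 11 / 2.
The computation is carried out by the kernel on natural numbers.
-/

namespace Pool.Agent.H841R2.FlowHalf.Cert

open Pool.Agent.Helper96.Flow (bb rho)

noncomputable def frc (n : ℕ) (f : ℕ → Bool) : Bool :=
  @Nat.rec (fun _ => Bool) (f 0) (fun n' _ => f (Nat.succ n')) n

noncomputable def ifz (n : ℕ) (c : Bool) : Bool :=
  @Nat.rec (fun _ => Bool) c (fun _ _ => false) n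

noncomputable def conv (G : List ℕ) : List ℕ → ℕ :=
  @List.rec ℕ (fun _ => List ℕ → ℕ) (fun _ => 0)
    (fun g _ ih Ds => @List.rec ℕ (fun _ => ℕ) 0
      (fun D Ds' _ => Nat.add (Nat.mul g D) (Nat.mul 2 (ih Ds'))) Ds) G

noncomputable def rv (cont : List ℕ → Bool) (l : List ℕ) : List ℕ → Bool :=
  @List.rec ℕ (fun _ => List ℕ → Bool) (fun acc => cont acc)
    (fun a _ ih acc => ih (List.cons a acc)) l

noncomputable def bG (cont : List ℕ → List ℕ → Bool) (n : ℕ) :
    ℕ → ℕ → List ℕ → List ℕ → Bool :=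
  @Nat.rec (fun _ => ℕ → ℕ → List ℕ → List ℕ → Bool) (fun _ _ lG lH => cont lG lH)
    (fun _ ih k g lG lH =>
      frc (Nat.mul g (Nat.mul 6 (Nat.mul (Nat.add (Nat.mul 6 k) 5) (Nat.add (Nat.mul 6 k) 1)))) fun X =>
      frc (Nat.succ k) fun k1 =>
      ifz (Nat.mod X k1)
        (frc (Nat.div X k1) fun g1 => ih k1 g1 (List.cons g1 lG) (List.cons X lH))) n

noncomputable def dl (G H : List ℕ) (cont : List ℕ → Bool) (n : ℕ) : ℕ → List ℕ → Bool :=
  @Nat.rec (fun _ => ℕ → List ℕ → Bool) (fun _ Ds => cont Ds)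
    (fun _ ih k Ds =>
      frc (Nat.sub (Nat.mul 13 (conv H Ds)) (Nat.mul (Nat.mul 2 k) (conv G Ds))) fun X =>
      ifz (Nat.mod X k) (@Nat.rec (fun _ => Bool) false
        (fun q' _ => frc (Nat.succ k) fun k1 => ih k1 (List.cons (Nat.succ q') Ds))
        (Nat.div X k))) n

noncomputable def horn (pn j2 j6 : ℕ) (cont : ℕ → Bool) (n : ℕ) : ℕ → ℕ → ℕ → Bool :=
  @Nat.rec (fun _ => ℕ → ℕ → ℕ → Bool) (fun _ _ acc => cont acc)
    (fun _ ih i T acc =>
      frc (Nat.mul T (Nat.mul 3 (Nat.mul (Nat.add pn (Nat.mul 4 i)) (Nat.sub j2 i)))) fun X =>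
      frc (Nat.mul (Nat.succ i) (Nat.sub j6 (Nat.succ (Nat.mul 2 i)))) fun c =>
      ifz (Nat.mod X c)
        (frc (Nat.div X c) fun T' => frc (Nat.add (Nat.mul 4 acc) T') fun acc' =>
          ih (Nat.succ i) T' acc')) n

noncomputable def fin (G : List ℕ) : List ℕ → ℕ → ℕ → ℕ → Bool :=
  @List.rec ℕ (fun _ => List ℕ → ℕ → ℕ → ℕ → Bool)
    (fun Ds _ P N => @List.rec ℕ (fun _ => Bool) (Nat.ble (Nat.succ N) P) (fun _ _ _ => false) Ds)
    (fun g _ ih Ds j P N =>
     @List.rec ℕ (fun _ => Bool) false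
       (fun D Ds' _ =>
          frc (Nat.mul 2 j) fun j2 => frc (Nat.mul 6 j) fun j6 =>
          frc (Nat.sub 2035 (Nat.mul 12 j)) fun pn =>
          horn pn j2 j6 (fun A =>
            frc (Nat.add (Nat.mul D A) (Nat.mul 11 N)) fun P' =>
            frc (Nat.mul 11 P) fun N' =>
            frc (Nat.succ j) fun j1 => ih Ds' j1 P' N') j2 0 g g) Ds) G

noncomputable def cert : Bool :=
  bG (fun lG lH =>
    rv (fun G => rv (fun H =>
      @List.rec ℕ (fun _ => Bool) false (fun _ G1 _ =>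
        dl G1 H (fun Ds => fin G Ds 0 0 0) 169 1 (List.cons 1 List.nil)) G)
      lH List.nil) lG List.nil) 169 0 1 (List.cons 1 List.nil) List.nil

theorem cert_true : cert = true := by decide +kernel

theorem frc_true {n : ℕ} {f : ℕ → Bool} (h : frc n f = true) : f n = true := by
  cases n with
  | zero => exact h
  | succ n => exact h

theorem ifz_true {n : ℕ} {c : Bool} (h : ifz n c = true) : n = 0 ∧ c = true := by
  cases n with
  | zero => exact ⟨rfl, h⟩
  | succ n => exact absurd h Bool.false_ne_true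

def Asc (f : ℕ → ℚ) : ℕ → List ℕ → Prop
  | _, [] => True
  | s, x :: l => (x : ℚ) = f s ∧ Asc f (s + 1) l

def Desc (f : ℕ → ℚ) : ℕ → List ℕ → Prop
  | 0, [] => True
  | 0, _ :: _ => False
  | _ + 1, [] => False
  | k + 1, x :: l => (x : ℚ) = f k ∧ Desc f k l

noncomputable def gs (k : ℕ) : ℚ := bb k / 2 ^ k

noncomputable def hs (k : ℕ) : ℚ := ((k : ℚ) + 1) * gs (k + 1)

theorem gs_zero : gs 0 = 1 := by
  simp [gs, bb]

theorem hs_eq (k : ℕ) : hs k = gs k * (6 * ((6 * k + 5) * (6 * k + 1))) := by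
  have h6 : 6 * (k + 1) = 6 * k + 5 + 1 := by ring
  have h3 : 3 * (k + 1) = 3 * k + 2 + 1 := by ring
  have h2 : 2 * (k + 1) = 2 * k + 1 + 1 := by ring
  have e6 : ((6 * (k + 1)).factorial : ℚ) = (6 * k + 6) * (6 * k + 5) * (6 * k + 4) * (6 * k + 3) * (6 * k + 2) * (6 * k + 1) * ((6 * k).factorial : ℚ) := by
    rw [h6, Nat.factorial_succ, Nat.factorial_succ, Nat.factorial_succ, Nat.factorial_succ, Nat.factorial_succ, Nat.factorial_succ]
    push_cast
    ring
  have e3 : ((3 * (k + 1)).factorial : ℚ) = (3 * k + 3) * (3 * k + 2) * (3 * k + 1) * ((3 * k).factorial : ℚ) := by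
    rw [h3, Nat.factorial_succ, Nat.factorial_succ, Nat.factorial_succ]
    push_cast
    ring
  have e2 : ((2 * (k + 1)).factorial : ℚ) = (2 * k + 2) * (2 * k + 1) * ((2 * k).factorial : ℚ) := by
    rw [h2, Nat.factorial_succ, Nat.factorial_succ]
    push_cast
    ring
  have p3 : ((3 * k).factorial : ℚ) ≠ 0 := by exact_mod_cast Nat.factorial_ne_zero _
  have p2 : ((2 * k).factorial : ℚ) ≠ 0 := by exact_mod_cast Nat.factorial_ne_zero _
  have q1 : (3 * (k : ℚ) + 3) ≠ 0 := by positivity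
  have q2 : (3 * (k : ℚ) + 2) ≠ 0 := by positivity
  have q3 : (3 * (k : ℚ) + 1) ≠ 0 := by positivity
  have q4 : (2 * (k : ℚ) + 2) ≠ 0 := by positivity
  have q5 : (2 * (k : ℚ) + 1) ≠ 0 := by positivity
  unfold hs gs bb
  rw [e6, e3, e2, pow_succ]
  field_simp
  ring

theorem rv_spec (f : ℕ → ℚ) (cont : List ℕ → Bool) (l : List ℕ) :
    ∀ (k : ℕ) (acc : List ℕ), Desc f k l → Asc f k acc → rv cont l acc = true →
      ∃ L : List ℕ, Asc f 0 L ∧ L.length = k + acc.length ∧ cont L = true := by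
  induction l with
  | nil =>
    intro k acc hd ha h
    cases k with
    | zero => exact ⟨acc, ha, by simp, h⟩
    | succ k => exact absurd hd (by simp [Desc])
  | cons x l ih =>
    intro k acc hd ha h
    cases k with
    | zero => exact absurd hd (by simp [Desc])
    | succ k =>
      obtain ⟨L, h1, h2, h3⟩ := ih k (x :: acc) hd.2 ⟨hd.1, ha⟩ h
      exact ⟨L, h1, by simp at h2; omega, h3⟩

theorem bG_succ (cont : List ℕ → List ℕ → Bool) (n k g : ℕ) (lG lH : List ℕ) :
    bG cont (n + 1) k g lG lH =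
      frc (Nat.mul g (Nat.mul 6 (Nat.mul (Nat.add (Nat.mul 6 k) 5) (Nat.add (Nat.mul 6 k) 1)))) fun X =>
      frc (Nat.succ k) fun k1 =>
      ifz (Nat.mod X k1)
        (frc (Nat.div X k1) fun g1 => bG cont n k1 g1 (List.cons g1 lG) (List.cons X lH)) := rfl

theorem dl_succ (G H : List ℕ) (cont : List ℕ → Bool) (n k : ℕ) (Ds : List ℕ) :
    dl G H cont (n + 1) k Ds =
      frc (Nat.sub (Nat.mul 13 (conv H Ds)) (Nat.mul (Nat.mul 2 k) (conv G Ds))) fun X =>
      ifz (Nat.mod X k) (@Nat.rec (fun _ => Bool) false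
        (fun q' _ => frc (Nat.succ k) fun k1 => dl G H cont n k1 (List.cons (Nat.succ q') Ds))
        (Nat.div X k)) := rfl

theorem horn_succ (pn j2 j6 : ℕ) (cont : ℕ → Bool) (n i T acc : ℕ) :
    horn pn j2 j6 cont (n + 1) i T acc =
      frc (Nat.mul T (Nat.mul 3 (Nat.mul (Nat.add pn (Nat.mul 4 i)) (Nat.sub j2 i)))) fun X =>
      frc (Nat.mul (Nat.succ i) (Nat.sub j6 (Nat.succ (Nat.mul 2 i)))) fun c =>
      ifz (Nat.mod X c)
        (frc (Nat.div X c) fun T' => frc (Nat.add (Nat.mul 4 acc) T') fun acc' =>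
          horn pn j2 j6 cont n (Nat.succ i) T' acc') := rfl

theorem fin_cons (g : ℕ) (G : List ℕ) (D : ℕ) (Ds : List ℕ) (j P N : ℕ) :
    fin (g :: G) (D :: Ds) j P N =
          frc (Nat.mul 2 j) fun j2 => frc (Nat.mul 6 j) fun j6 =>
          frc (Nat.sub 2035 (Nat.mul 12 j)) fun pn =>
          horn pn j2 j6 (fun A =>
            frc (Nat.add (Nat.mul D A) (Nat.mul 11 N)) fun P' =>
            frc (Nat.mul 11 P) fun N' =>
            frc (Nat.succ j) fun j1 => fin G Ds j1 P' N') j2 0 g g := rfl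

theorem bG_spec (cont : List ℕ → List ℕ → Bool) (n : ℕ) :
    ∀ (k g : ℕ) (lG lH : List ℕ), (g : ℚ) = gs k → Desc gs (k + 1) lG → Desc hs k lH →
      bG cont n k g lG lH = true →
      ∃ LG LH : List ℕ, Desc gs (k + n + 1) LG ∧ Desc hs (k + n) LH ∧ cont LG LH = true := by
  induction n with
  | zero =>
    intro k g lG lH hg h1 h2 h
    exact ⟨lG, lH, h1, h2, h⟩
  | succ n ih =>
    intro k g lG lH hg h1 h2 h
    rw [bG_succ] at h
    have h'a := frc_true h
    have h' := frc_true h'a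
    obtain ⟨hm, h''⟩ := ifz_true h'
    have h3 := frc_true h''
    have hX' : Nat.mul g (Nat.mul 6 (Nat.mul (Nat.add (Nat.mul 6 k) 5) (Nat.add (Nat.mul 6 k) 1))) =
        g * (6 * ((6 * k + 5) * (6 * k + 1))) := rfl
    generalize hXX : Nat.mul g (Nat.mul 6 (Nat.mul (Nat.add (Nat.mul 6 k) 5) (Nat.add (Nat.mul 6 k) 1))) = X at *
    have hX : (X : ℚ) = hs k := by
      rw [hs_eq, ← hg, hX']
      push_cast
      ring
    have hd : (k + 1) ∣ X := Nat.dvd_of_mod_eq_zero hm
    have hne : ((k + 1 : ℕ) : ℚ) ≠ 0 := by positivity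
    have hne' : (k : ℚ) + 1 ≠ 0 := by positivity
    have hdiv : ((Nat.div X (Nat.succ k) : ℕ) : ℚ) = gs (k + 1) := by
      have h9 : ((X / (k + 1) : ℕ) : ℚ) = (X : ℚ) / ((k + 1 : ℕ) : ℚ) := Nat.cast_div hd hne
      change ((X / (k + 1) : ℕ) : ℚ) = _
      rw [h9, hX, hs]
      push_cast
      field_simp
    obtain ⟨LG, LH, a1, a2, a3⟩ := ih (k + 1) _ (Nat.div X (Nat.succ k) :: lG) (X :: lH) hdiv ⟨hdiv, h1⟩ ⟨hX, h2⟩ h3
    refine ⟨LG, LH, ?_, ?_, a3⟩
    · have : k + (n + 1) + 1 = k + 1 + n + 1 := by ring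
      rw [this]; exact a1
    · have : k + (n + 1) = k + 1 + n := by ring
      rw [this]; exact a2

theorem conv_spec (f D : ℕ → ℚ) (G : List ℕ) :
    ∀ (s k : ℕ) (Ds : List ℕ), Asc f s G → Desc D k Ds → k ≤ G.length →
      ((conv G Ds : ℕ) : ℚ) = ∑ j ∈ Finset.range k, 2 ^ j * f (s + j) * D (k - 1 - j) := by
  induction G with
  | nil =>
    intro s k Ds ha hd hk
    have : k = 0 := by simpa using hk
    subst this
    simp [conv]
  | cons g G ih =>
    intro s k Ds ha hd hk
    cases k with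
    | zero =>
      cases Ds with
      | nil => simp [conv]
      | cons x l => exact absurd hd (by simp [Desc])
    | succ k =>
      cases Ds with
      | nil => exact absurd hd (by simp [Desc])
      | cons x l =>
        have h1 := ih (s + 1) k l ha.2 hd.2 (by simpa using hk)
        have e : conv (g :: G) (x :: l) = Nat.add (Nat.mul g x) (Nat.mul 2 (conv G l)) := rfl
        rw [e, Finset.sum_range_succ']
        simp only [Nat.mul_eq, Nat.add_eq]
        push_cast
        rw [h1, ha.1, hd.1, Finset.mul_sum]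
        have e2 : ∀ j ∈ Finset.range k, (2 : ℚ) * (2 ^ j * f (s + 1 + j) * D (k - 1 - j)) =
            2 ^ (j + 1) * f (s + (j + 1)) * D (k + 1 - 1 - (j + 1)) := by
          intro j hj
          have e3 : s + 1 + j = s + (j + 1) := by ring
          have e4 : k + 1 - 1 - (j + 1) = k - 1 - j := by omega
          rw [e3, e4, pow_succ]
          ring
        rw [Finset.sum_congr rfl e2]
        simp
        ring

theorem dl_spec (G H : List ℕ) (cont : List ℕ → Bool) (D : ℕ → ℚ) (hG : Asc gs 1 G) (hH : Asc hs 0 H)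
    (hrec : ∀ k : ℕ, ((k : ℚ) + 1) * D (k + 1) =
      13 * (∑ j ∈ Finset.range (k + 1), 2 ^ j * hs (0 + j) * D (k + 1 - 1 - j)) -
      2 * ((k : ℚ) + 1) * (∑ j ∈ Finset.range (k + 1), 2 ^ j * gs (1 + j) * D (k + 1 - 1 - j)))
    (n : ℕ) :
    ∀ (k : ℕ) (Ds : List ℕ), k + 1 + n ≤ G.length + 1 → k + 1 + n ≤ H.length + 1 →
      Desc D (k + 1) Ds → dl G H cont n (k + 1) Ds = true →
      ∃ L : List ℕ, Desc D (k + 1 + n) L ∧ cont L = true := by
  induction n with
  | zero =>
    intro k Ds _ _ hd h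
    exact ⟨Ds, hd, h⟩
  | succ n ih =>
    intro k Ds hk1 hk2 hd h
    rw [dl_succ] at h
    have h' := frc_true h
    obtain ⟨hm, h''⟩ := ifz_true h'
    have c1 := conv_spec hs D H 0 (k + 1) Ds hH hd (by omega)
    have c2 := conv_spec gs D G 1 (k + 1) Ds hG hd (by omega)
    generalize hs1 : conv H Ds = s1 at *
    generalize hs2 : conv G Ds = s2 at *
    have hr := hrec k
    rw [← c1, ← c2] at hr
    generalize hX : Nat.sub (Nat.mul 13 s1) (Nat.mul (Nat.mul 2 (k + 1)) s2) = X at *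
    generalize hq : Nat.div X (k + 1) = Q at *
    cases Q with
    | zero => exact absurd h'' Bool.false_ne_true
    | succ Q =>
      have h3 := frc_true h''
      have hdvd : (k + 1) ∣ X := Nat.dvd_of_mod_eq_zero hm
      have hXq : X = (k + 1) * (Q + 1) := by
        have : X / (k + 1) = Q + 1 := hq
        rw [← this]
        exact (Nat.mul_div_cancel' hdvd).symm
      have hX' : 13 * s1 - 2 * (k + 1) * s2 = X := hX
      have hXpos : 0 < X := by rw [hXq]; positivity
      have hsum : 13 * s1 = X + 2 * (k + 1) * s2 := by omega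
      have hsumq : (13 : ℚ) * s1 = X + 2 * ((k : ℚ) + 1) * s2 := by exact_mod_cast hsum
      have hXqq : (X : ℚ) = ((k : ℚ) + 1) * ((Q : ℚ) + 1) := by exact_mod_cast hXq
      have hne : (k : ℚ) + 1 ≠ 0 := by positivity
      have hD : ((Nat.succ Q : ℕ) : ℚ) = D (k + 1) := by
        have : ((k : ℚ) + 1) * D (k + 1) = ((k : ℚ) + 1) * ((Q : ℚ) + 1) := by
          rw [hr, hsumq, hXqq]; ring
        have h5 := mul_left_cancel₀ hne this
        rw [h5]; push_cast; ring
      obtain ⟨L, a1, a2⟩ := ih (k + 1) (Nat.succ Q :: Ds) (by omega) (by omega) ⟨hD, hd⟩ h3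
      refine ⟨L, ?_, a2⟩
      have : k + 1 + (n + 1) = k + 1 + 1 + n := by ring
      rw [this]; exact a1

noncomputable def tt (j k i : ℕ) : ℚ :=
  12 ^ i * 2 ^ (2 * j - i) * (∏ s ∈ Finset.range i, (3 * (k : ℚ) - 1 + (11 / 2) / 2 + s)) / (i.factorial : ℚ)
      * ((6 * j - 2 * i).factorial : ℚ) / (((2 * j - i).factorial : ℚ) * ((3 * j - i).factorial : ℚ))

theorem tt_zero (j k : ℕ) : tt j k 0 = gs j * 8 ^ j := by
  have h8 : (8 : ℚ) ^ j = 2 ^ (2 * j) * 2 ^ j := by
    rw [← pow_add, show 2 * j + j = 3 * j by ring, pow_mul]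
    norm_num
  simp only [tt, gs, bb]
  rw [h8]
  simp
  field_simp

theorem tt_succ (j k i : ℕ) (hi : i < 2 * j) :
    tt j k (i + 1) * (((i : ℚ) + 1) * (6 * j - (2 * i + 1))) * 4 =
      tt j k i * (3 * ((7 + 12 * k + 4 * i) * (2 * j - i))) := by
  obtain ⟨r, hr⟩ : ∃ r, 2 * j = i + 1 + r := ⟨2 * j - (i + 1), by omega⟩
  have a1 : 2 * j - (i + 1) = r := by omega
  have a2 : 2 * j - i = r + 1 := by omega
  obtain ⟨u, hu⟩ : ∃ u, 3 * j = i + 1 + u := ⟨3 * j - (i + 1), by omega⟩
  have b1 : 3 * j - (i + 1) = u := by omega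
  have b2 : 3 * j - i = u + 1 := by omega
  have c1 : 6 * j - 2 * (i + 1) = 2 * u := by omega
  have c2 : 6 * j - 2 * i = 2 * u + 1 + 1 := by omega
  have f1 : (2 * (j : ℚ)) = i + 1 + r := by exact_mod_cast hr
  have f2 : (3 * (j : ℚ)) = i + 1 + u := by exact_mod_cast hu
  have f3 : (6 * (j : ℚ)) - (2 * i + 1) = 2 * u + 1 := by linarith
  have f4 : (2 * (j : ℚ)) - i = r + 1 := by linarith
  simp only [tt]
  rw [a1, a2, b1, b2, c1, c2, f3, f4, Finset.prod_range_succ, Nat.factorial_succ, Nat.factorial_succ, Nat.factorial_succ,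
    Nat.factorial_succ, Nat.factorial_succ]
  push_cast
  have p1 : ((i.factorial : ℕ) : ℚ) ≠ 0 := by exact_mod_cast Nat.factorial_ne_zero _
  have p2 : ((r.factorial : ℕ) : ℚ) ≠ 0 := by exact_mod_cast Nat.factorial_ne_zero _
  have p3 : ((u.factorial : ℕ) : ℚ) ≠ 0 := by exact_mod_cast Nat.factorial_ne_zero _
  have q1 : (i : ℚ) + 1 ≠ 0 := by positivity
  have q2 : (r : ℚ) + 1 ≠ 0 := by positivity
  have q3 : (u : ℚ) + 1 ≠ 0 := by positivity
  field_simp
  ring

theorem horn_spec (cont : ℕ → Bool) (j k : ℕ) (n : ℕ) :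
    ∀ (i T acc : ℕ), i + n = 2 * j → (T : ℚ) * 8 ^ j = tt j k i * 4 ^ i →
      (acc : ℚ) * 8 ^ j = 4 ^ i * ∑ s ∈ Finset.range (i + 1), tt j k s →
      horn (7 + 12 * k) (2 * j) (6 * j) cont n i T acc = true →
      ∃ A : ℕ, (A : ℚ) * 8 ^ j = 4 ^ (2 * j) * rho (11 / 2) j k ∧ cont A = true := by
  induction n with
  | zero =>
    intro i T acc hi hT hacc h
    have hi' : i = 2 * j := by omega
    subst hi'
    exact ⟨acc, hacc, h⟩
  | succ n ih =>
    intro i T acc hi hT hacc h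
    rw [horn_succ] at h
    have h'a := frc_true h
    have h' := frc_true h'a
    obtain ⟨hm, h''⟩ := ifz_true h'
    have h3a := frc_true h''
    have h3 := frc_true h3a
    have hts := tt_succ j k i (by omega)
    generalize hX : Nat.mul T (Nat.mul 3 (Nat.mul (Nat.add (7 + 12 * k) (Nat.mul 4 i)) (Nat.sub (2 * j) i))) = X at *
    generalize hc : Nat.mul (Nat.succ i) (Nat.sub (6 * j) (Nat.succ (Nat.mul 2 i))) = c at *
    have hX' : T * (3 * ((7 + 12 * k + 4 * i) * (2 * j - i))) = X := hX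
    have hc' : (i + 1) * (6 * j - (2 * i + 1)) = c := hc
    have hXq : (X : ℚ) = T * (3 * ((7 + 12 * k + 4 * i) * (2 * j - i))) := by
      rw [← hX']
      push_cast [Nat.cast_sub (show i ≤ 2 * j by omega)]
      ring
    have hcq : (c : ℚ) = ((i : ℚ) + 1) * (6 * j - (2 * i + 1)) := by
      rw [← hc']
      push_cast [Nat.cast_sub (show 2 * i + 1 ≤ 6 * j by omega)]
      ring
    have hcpos : 0 < c := by
      rw [← hc']
      exact Nat.mul_pos (by omega) (by omega)
    have hcne : (c : ℚ) ≠ 0 := by positivity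
    have hdvd : c ∣ X := Nat.dvd_of_mod_eq_zero hm
    have hdiv : ((Nat.div X c : ℕ) : ℚ) = X / c := Nat.cast_div hdvd hcne
    generalize hT' : Nat.div X c = T' at *
    have hT'2 : (T' : ℚ) * 8 ^ j = tt j k (i + 1) * 4 ^ (i + 1) := by
      rw [← hcq] at hts
      rw [hdiv, div_mul_eq_mul_div, div_eq_iff hcne, hXq, pow_succ]
      calc (T : ℚ) * (3 * ((7 + 12 * k + 4 * i) * (2 * j - i))) * 8 ^ j
          = (T * 8 ^ j) * (3 * ((7 + 12 * k + 4 * i) * (2 * j - i))) := by ring
        _ = (tt j k i * (3 * ((7 + 12 * k + 4 * i) * (2 * j - i)))) * 4 ^ i := by rw [hT]; ring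
        _ = tt j k (i + 1) * (4 ^ i * 4) * c := by rw [← hts]; ring
    refine ih (i + 1) T' _ (by omega) hT'2 ?_ h3
    simp only [Nat.mul_eq, Nat.add_eq]
    push_cast
    rw [add_mul, hT'2, mul_assoc, hacc, Finset.sum_range_succ _ (i + 1), pow_succ]
    ring

theorem fin_spec (D : ℕ → ℚ) (G : List ℕ) :
    ∀ (j : ℕ) (Ds : List ℕ) (k P N : ℕ), Asc gs j G → Desc D k Ds → j + k = 170 →
      fin G Ds j P N = true →
      0 < (-11) ^ k * ((P : ℚ) - N) + ∑ s ∈ Finset.range k,
        (-11) ^ s * (D s * (2 ^ (169 - s) * rho (11 / 2) (169 - s) s)) := by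
  induction G with
  | nil =>
    intro j Ds k P N ha hd hj h
    cases Ds with
    | nil =>
      cases k with
      | zero =>
        have h1 : Nat.ble (Nat.succ N) P = true := h
        have h2 : N + 1 ≤ P := Nat.le_of_ble_eq_true h1
        have h3 : (N : ℚ) + 1 ≤ P := by exact_mod_cast h2
        simp
        linarith
      | succ k => exact absurd hd (by simp [Desc])
    | cons x l => exact absurd h Bool.false_ne_true
  | cons g G ih =>
    intro j Ds k P N ha hd hj h
    cases Ds with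
    | nil => exact absurd h Bool.false_ne_true
    | cons x l =>
      cases k with
      | zero => exact absurd hd (by simp [Desc])
      | succ k =>
        rw [fin_cons] at h
        have h1a := frc_true h
        have h1b := frc_true h1a
        have h1 := frc_true h1b
        have hjk : j = 169 - k := by omega
        have hpn : Nat.sub 2035 (Nat.mul 12 j) = 7 + 12 * k := by
          change 2035 - 12 * j = 7 + 12 * k
          omega
        rw [hpn] at h1
        have hg0 : (g : ℚ) * 8 ^ j = tt j k 0 * 4 ^ 0 := by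
          rw [tt_zero, ha.1]; ring
        have hg1 : (g : ℚ) * 8 ^ j = 4 ^ 0 * ∑ s ∈ Finset.range (0 + 1), tt j k s := by
          rw [hg0]; simp
        obtain ⟨A, hA, h2⟩ := horn_spec _ j k (2 * j) 0 g g (by omega) hg0 hg1 h1
        have h3a := frc_true h2
        have h3b := frc_true h3a
        have h3 := frc_true h3b
        have h4 := ih (j + 1) l k _ _ ha.2 hd.2 (by omega) h3
        have hA2 : (A : ℚ) = 2 ^ j * rho (11 / 2) j k := by
          have h8 : (8 : ℚ) ^ j ≠ 0 := by positivity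
          have e : (4 : ℚ) ^ (2 * j) = 2 ^ j * 8 ^ j := by
            rw [pow_mul, ← mul_pow]
            norm_num
          apply mul_right_cancel₀ h8
          rw [hA, e]; ring
        rw [Finset.sum_range_succ, ← hjk, ← hA2, ← hd.1]
        simp only [Nat.mul_eq, Nat.add_eq] at h4
        push_cast at h4
        refine lt_of_lt_of_eq h4 ?_
        rw [pow_succ]
        ring

theorem pow_aux (M k : ℕ) (hM : M = 169) (hk : k ≤ 169) :
    (2 : ℚ) ^ M = 2 ^ (169 - k) * 2 ^ k := by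
  subst hM
  rw [← pow_add]
  congr 1
  omega

theorem neg_cert (d : ℕ → ℚ) (hd0 : d 0 = 1)
    (hd : ∀ k : ℕ, ((k : ℚ) + 1) * d (k + 1) = ∑ j ∈ Finset.range (k + 1),
      (((j : ℚ) + 1) * (11 / 2) - ((k : ℚ) - j)) * bb (j + 1) * d (k - j)) :
    ∑ k ∈ Finset.range (169 + 1), (-1) ^ (169 - k) * (11 / 2) ^ k * d k * rho (11 / 2) (169 - k) k < 0 := by
  have hc := cert_true
  obtain ⟨LG, LH, g1, g2, g3⟩ := bG_spec _ 169 0 1 (List.cons 1 List.nil) List.nil (by rw [gs_zero]; norm_num)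
    (by refine ⟨?_, trivial⟩; rw [gs_zero]; norm_num) trivial hc
  obtain ⟨G, hG, hGl, g4⟩ := rv_spec gs _ LG _ [] g1 trivial g3
  obtain ⟨H, hH, hHl, g5⟩ := rv_spec hs _ LH _ [] g2 trivial g4
  cases G with
  | nil => exact absurd g5 Bool.false_ne_true
  | cons g0 G1 =>
    have hrec : ∀ k : ℕ, ((k : ℚ) + 1) * d (k + 1) =
      13 * (∑ j ∈ Finset.range (k + 1), 2 ^ j * hs (0 + j) * d (k + 1 - 1 - j)) -
      2 * ((k : ℚ) + 1) * (∑ j ∈ Finset.range (k + 1), 2 ^ j * gs (1 + j) * d (k + 1 - 1 - j)) := by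
      intro k
      have h1 := hd k
      rw [h1, Finset.mul_sum, Finset.mul_sum, ← Finset.sum_sub_distrib]
      apply Finset.sum_congr rfl
      intro j hj
      have hj' : j ≤ k := by simpa [Nat.lt_succ_iff] using hj
      obtain ⟨r, rfl⟩ : ∃ r, k = j + r := ⟨k - j, by omega⟩
      have e1 : j + r - j = r := by omega
      have e2 : j + r + 1 - 1 - j = r := by omega
      rw [e1, e2]
      simp only [hs, gs, zero_add, add_comm 1 j]
      have e5 : (2 : ℚ) ^ j ≠ 0 := by positivity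
      rw [pow_succ]
      push_cast
      field_simp
      ring
    obtain ⟨L, hL, g6⟩ := dl_spec G1 H _ d hG.2 hH hrec 169 0 _ (by simp at hGl; omega)
      (by simp at hHl; omega) (by refine ⟨?_, trivial⟩; simp [hd0]) g5
    have h7 := fin_spec d (g0 :: G1) 0 L 170 0 0 hG hL rfl g6
    simp only [Nat.cast_zero, sub_zero, mul_zero, zero_add] at h7
    obtain ⟨M, hM⟩ : ∃ M : ℕ, M = 169 := ⟨_, rfl⟩
    have hpos : (0 : ℚ) < 2 ^ M := by positivity
    have key : ∑ k ∈ Finset.range (169 + 1), (-1) ^ (169 - k) * (11 / 2 : ℚ) ^ k * d k * rho (11 / 2) (169 - k) k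
        = -(∑ s ∈ Finset.range 170, (-11) ^ s * (d s * (2 ^ (169 - s) * rho (11 / 2) (169 - s) s))) / 2 ^ M := by
      rw [neg_div, Finset.sum_div, ← Finset.sum_neg_distrib]
      apply Finset.sum_congr rfl
      intro k hk
      have hk' : k ≤ 169 := by have := Finset.mem_range.1 hk; omega
      rw [eq_neg_iff_add_eq_zero, ← eq_neg_iff_add_eq_zero, ← neg_div, eq_div_iff (ne_of_gt hpos)]
      have e1 : (-1 : ℚ) ^ (169 - k) = -(-1) ^ k := by
        have h1 : (-1 : ℚ) ^ (169 - k) * (-1) ^ k = -1 := by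
          rw [← pow_add, Nat.sub_add_cancel hk']
          norm_num
        have h2 : (-1 : ℚ) ^ k * (-1) ^ k = 1 := by rw [← mul_pow]; norm_num
        have h3 : (-1 : ℚ) ^ k ≠ 0 := by
          intro h0; rw [h0] at h2; norm_num at h2
        apply mul_right_cancel₀ h3
        rw [h1, neg_mul, h2]
      have e2 : (2 : ℚ) ^ M = 2 ^ (169 - k) * 2 ^ k := pow_aux M k hM hk'
      have e3 : (-11 : ℚ) ^ k = (-1) ^ k * 11 ^ k := by rw [← mul_pow]; norm_num
      rw [e1, e2, e3, div_pow]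
      field_simp
    rw [key]
    exact div_neg_of_neg_of_pos (neg_neg_of_pos h7) hpos

end Pool.Agent.H841R2.FlowHalf.Cert
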