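import Mathlib
import Pool.Agent.Helper96.FlowAssemble
import Pool.Agent.H841R2.FlowHalfCert

set_option autoImplicit false

open Finset Polynomial

namespace Pool.Agent.H841R2.FlowHalf

open Pool.Agent.Helper96.Flow

section explicit

variable {V E : Type} [Fintype V] [DecidableEq V] [Fintype E] [DecidableEq E]

/-- the explicit flow polynomial -/
noncomputable def PE (src tgt : E → V) : ℤ[X] :=
  ∑ A ∈ (univ : Finset E).powerset, C ((-1 : ℤ) ^ (univ \ A).card) *
    X ^ (A.card + Nat.card (Quot (fun v w : V => ∃ e ∈ A, src e = v ∧ tgt e = w)) -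
      Fintype.card V)

theorem PE_spec (src tgt : E → V) (k : ℕ) (hk : 1 ≤ k) :
    (PE src tgt).eval (k : ℤ) = (numNZ src tgt k : ℤ) := by
  classical
  unfold PE
  have hk0 : (k : ℤ) ^ Fintype.card V ≠ 0 := by
    apply pow_ne_zero
    exact_mod_cast (by omega : k ≠ 0)
  apply mul_left_cancel₀ hk0
  rw [potts src tgt k hk, eval_finsetSum, Finset.mul_sum]
  have h1 : ∀ σ : V → Fin k, ∏ e : E, ((if σ (src e) = σ (tgt e) then (k : ℤ) else 0) - 1) =
      ∑ A ∈ (univ : Finset E).powerset, (if ∀ e ∈ A, σ (src e) = σ (tgt e) then
        (k : ℤ) ^ A.card * (-1) ^ (univ \ A).card else 0) := by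
    intro σ
    simp only [sub_eq_add_neg]
    rw [Finset.prod_add]
    refine Finset.sum_congr rfl fun A _ => ?_
    rw [Finset.prod_const]
    split_ifs with h
    · rw [Finset.prod_congr rfl (fun e he => by rw [if_pos (h e he)]), Finset.prod_const]
    · push Not at h
      obtain ⟨e, he, hne⟩ := h
      rw [Finset.prod_eq_zero he (by rw [if_neg hne]), zero_mul]
  simp only [h1]
  rw [Finset.sum_comm]
  refine Finset.sum_congr rfl fun A _ => ?_
  have h2 := rank_bound src tgt A
  have h3 := count_const src tgt A (Fin k)
  rw [Nat.card_eq_fintype_card, Fintype.card_subtype, Nat.card_fin] at h3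
  rw [Finset.sum_ite, Finset.sum_const_zero, add_zero, Finset.sum_const, nsmul_eq_mul, h3,
    eval_mul, eval_C, eval_pow, eval_X]
  generalize Nat.card (Quot (fun v w : V => ∃ e ∈ A, src e = v ∧ tgt e = w)) = c at *
  obtain ⟨d, hd⟩ : ∃ d, A.card + c = Fintype.card V + d := ⟨A.card + c - Fintype.card V, by omega⟩
  rw [show A.card + c - Fintype.card V = d by omega]
  push_cast
  symm
  calc (k : ℤ) ^ c * ((k : ℤ) ^ A.card * (-1) ^ (univ \ A).card)
      = (k : ℤ) ^ (A.card + c) * (-1) ^ (univ \ A).card := by rw [pow_add]; ring
    _ = _ := by rw [hd, pow_add]; ring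

end explicit

theorem QL_eq {V : Type} [Fintype V] [DecidableEq V] (L : List (V × V)) :
    QL L = PE (lsrc L) (ltgt L) := by
  apply Polynomial.eq_of_infinite_eval_eq
  apply Set.infinite_of_injective_forall_mem (f := fun M : ℕ => ((M + 1 : ℕ) : ℤ))
  · intro a b hab
    have hab' : ((a + 1 : ℕ) : ℤ) = ((b + 1 : ℕ) : ℤ) := hab
    have : a + 1 = b + 1 := by exact_mod_cast hab'
    omega
  · intro M
    rw [Set.mem_ofPred_eq]
    exact (QL_spec L (M + 1) (by omega)).trans (PE_spec _ _ (M + 1) (by omega)).symm

/-! ### the formula through connected components -/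

section formula

variable {V E : Type}

/-- the function `s` is constant on the edges in `A` -/
def Cst (ends : E → Sym2 V) (A : Set E) {X : Type} (s : V → X) : Prop :=
  ∀ e ∈ A, ∀ a b, ends e = s(a, b) → s a = s b

/-- number of connected components of the spanning subgraph -/
noncomputable def kc (ends : E → Sym2 V) (A : Set E) : ℕ :=
  Nat.card (SimpleGraph.fromEdgeSet (ends '' A)).ConnectedComponent

theorem cst_of_reachable (ends : E → Sym2 V) (A : Set E) {X : Type} (s : V → X)
    (h : Cst ends A s) {a b : V} (hab : (SimpleGraph.fromEdgeSet (ends '' A)).Reachable a b) :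
    s a = s b := by
  obtain ⟨p⟩ := hab
  induction p with
  | nil => rfl
  | cons hadj _ ih =>
    rw [← ih]
    rw [SimpleGraph.fromEdgeSet_adj] at hadj
    obtain ⟨⟨e, he, hee⟩, _⟩ := hadj
    exact h e he _ _ hee

theorem reachable_of_edge (ends : E → Sym2 V) (A : Set E) {e : E} (he : e ∈ A) {a b : V}
    (h : ends e = s(a, b)) : (SimpleGraph.fromEdgeSet (ends '' A)).Reachable a b := by
  by_cases hab : a = b
  · subst hab; rfl
  · apply SimpleGraph.Adj.reachable
    rw [SimpleGraph.fromEdgeSet_adj]
    exact ⟨⟨e, he, h⟩, hab⟩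

theorem count_cc [Finite V] (ends : E → Sym2 V) (A : Set E) (X : Type) [Finite X] :
    Nat.card {s : V → X // Cst ends A s} = Nat.card X ^ kc ends A := by
  classical
  have e1 : {s : V → X // Cst ends A s} ≃
      ((SimpleGraph.fromEdgeSet (ends '' A)).ConnectedComponent → X) :=
    { toFun := fun s => fun c => Quot.lift s.1 (fun a b hab => cst_of_reachable ends A s.1 s.2 hab) c
      invFun := fun g => ⟨fun v => g (SimpleGraph.connectedComponentMk _ v), fun e he a b hab => by
        show g _ = g _
        congr 1
        exact SimpleGraph.ConnectedComponent.sound (reachable_of_edge ends A he hab)⟩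
      left_inv := fun s => rfl
      right_inv := fun g => by
        funext q
        induction q using Quot.ind
        rfl }
  have : Finite (SimpleGraph.fromEdgeSet (ends '' A)).ConnectedComponent := Quot.finite _
  rw [Nat.card_congr e1, Nat.card_fun, kc]

/-- the flow polynomial as in the frozen statement -/
noncomputable def FP [Fintype V] [Fintype E] (ends : E → Sym2 V) : ℝ :=
  ∑ A ∈ (Finset.univ : Finset E).powerset,
            (-1 : ℝ) ^ (Fintype.card E - A.card) *
              (11 / 2 : ℝ) ^ ((A.card + kc ends (A : Set E)) - Fintype.card V)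

theorem FP_eq_eval [Fintype V] [DecidableEq V] [Fintype E] [DecidableEq E] (src tgt : E → V) :
    FP (fun e => s(src e, tgt e)) =
      ((((PE src tgt).map (Int.castRingHom ℚ)).eval (11 / 2 : ℚ) : ℚ) : ℝ) := by
  rw [PE, Polynomial.map_sum, eval_finsetSum, FP]
  push_cast
  refine Finset.sum_congr rfl fun A _ => ?_
  have hk : kc (fun e => s(src e, tgt e)) (A : Set E) =
      Nat.card (Quot (fun v w : V => ∃ e ∈ A, src e = v ∧ tgt e = w)) := by
    have h1 := count_cc (fun e => s(src e, tgt e)) (A : Set E) (ZMod 2)
    have h2 := count_const src tgt A (ZMod 2)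
    have h3 : Nat.card {s : V → ZMod 2 // Cst (fun e => s(src e, tgt e)) (A : Set E) s} =
        Nat.card {s : V → ZMod 2 // ∀ e ∈ A, s (src e) = s (tgt e)} := by
      apply Nat.card_congr
      apply Equiv.subtypeEquivRight
      intro s
      constructor
      · intro h e he
        exact h e (by exact_mod_cast he) _ _ rfl
      · intro h e he a b hab
        rw [Sym2.eq_iff] at hab
        have := h e (by exact_mod_cast he)
        rcases hab with ⟨rfl, rfl⟩ | ⟨rfl, rfl⟩
        · exact this
        · exact this.symm
    rw [h1, h2, Nat.card_zmod] at h3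
    exact Nat.pow_right_injective le_rfl h3
  rw [hk, Polynomial.map_mul, Polynomial.map_pow, map_X, map_C, eval_mul, eval_pow, eval_X, eval_C]
  rw [← Finset.card_univ, Finset.card_sdiff_of_subset (Finset.subset_univ A), map_pow, map_neg,
    map_one]
  push_cast
  ring

/-- halving: if `u, v` are separated by a function constant on `A`, then identifying `u` and `v`
halves the number of functions to `ZMod 2` -/
theorem halve [Finite V] (K : AddSubgroup (V → ZMod 2)) (u v : V)
    (hχ : ∃ χ ∈ K, χ u ≠ χ v) :
    Nat.card {s : V → ZMod 2 // s ∈ K} = 2 * Nat.card {s : V → ZMod 2 // s ∈ K ∧ s u = s v} := by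
  classical
  obtain ⟨χ, hχ, hne⟩ := hχ
  have key : ∀ z : ZMod 2, z ≠ 0 → z = 1 := by decide
  have hχ1 : χ u - χ v = 1 := key _ (sub_ne_zero.2 hne)
  have e : {s : V → ZMod 2 // s ∈ K} ≃ {s : V → ZMod 2 // s ∈ K ∧ s u = s v} ⊕
      {s : V → ZMod 2 // s ∈ K ∧ s u = s v} :=
    { toFun := fun s => if h : s.1 u = s.1 v then Sum.inl ⟨s.1, s.2, h⟩ else
        Sum.inr ⟨s.1 - χ, K.sub_mem s.2 hχ, by
          have h1 : s.1 u - s.1 v = 1 := key _ (sub_ne_zero.2 h)
          show s.1 u - χ u = s.1 v - χ v
          rw [sub_eq_sub_iff_sub_eq_sub, h1, hχ1]⟩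
      invFun := fun t => Sum.elim (fun s => ⟨s.1, s.2.1⟩) (fun s => ⟨s.1 + χ, K.add_mem s.2.1 hχ⟩) t
      left_inv := by
        intro s
        by_cases h : s.1 u = s.1 v
        · simp [h]
        · simp [h]
      right_inv := by
        rintro (s | s)
        · simp [s.2.2]
        · have : ¬ (s.1 + χ) u = (s.1 + χ) v := by
            simp [s.2.2, hne]
          simp only [Sum.elim_inr]
          rw [dif_neg this]
          simp }
  rw [Nat.card_congr e, Nat.card_sum, two_mul]

/-- the subgroup of functions constant on `A` -/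
def KA (ends : E → Sym2 V) (A : Set E) : AddSubgroup (V → ZMod 2) where
  carrier := {s | Cst ends A s}
  add_mem' := by
    intro s t hs ht e he a b hab
    show s a + t a = s b + t b
    rw [hs e he a b hab, ht e he a b hab]
  zero_mem' := by
    intro e _ a b _
    rfl
  neg_mem' := by
    intro s hs e he a b hab
    show - s a = - s b
    rw [hs e he a b hab]

theorem exists_sep [Finite V] (ends : E → Sym2 V) (A : Set E) (u v : V)
    (h : ¬ (SimpleGraph.fromEdgeSet (ends '' A)).Reachable u v) :
    ∃ χ ∈ KA ends A, χ u ≠ χ v := by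
  classical
  refine ⟨fun w => if (SimpleGraph.fromEdgeSet (ends '' A)).Reachable u w then 1 else 0, ?_, ?_⟩
  · intro e he a b hab
    have hr := reachable_of_edge ends A he hab
    have : (SimpleGraph.fromEdgeSet (ends '' A)).Reachable u a ↔
        (SimpleGraph.fromEdgeSet (ends '' A)).Reachable u b :=
      ⟨fun h => h.trans hr, fun h => h.trans hr.symm⟩
    simp only [this]
  · simp [h]

theorem card_KA [Finite V] (ends : E → Sym2 V) (A : Set E) :
    Nat.card {s : V → ZMod 2 // s ∈ KA ends A} = 2 ^ kc ends A := by
  have := count_cc ends A (ZMod 2)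
  rw [Nat.card_zmod] at this
  exact this

/-- adding a bridge decreases the number of components by one -/
theorem kc_insert [Finite V] (ends : E → Sym2 V) (A : Set E) (e : E) (u v : V)
    (he : ends e = s(u, v)) (h : ¬ (SimpleGraph.fromEdgeSet (ends '' A)).Reachable u v) :
    kc ends A = kc ends (insert e A) + 1 := by
  have h1 := halve (KA ends A) u v (exists_sep ends A u v h)
  rw [card_KA] at h1
  have h2 : Nat.card {s : V → ZMod 2 // s ∈ KA ends A ∧ s u = s v} = 2 ^ kc ends (insert e A) := by
    rw [← card_KA]
    apply Nat.card_congr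
    apply Equiv.subtypeEquivRight
    intro s
    constructor
    · rintro ⟨hs, huv⟩ f hf a b hab
      rcases Set.mem_insert_iff.1 hf with rfl | hf
      · rw [he, Sym2.eq_iff] at hab
        rcases hab with ⟨rfl, rfl⟩ | ⟨rfl, rfl⟩
        · exact huv
        · exact huv.symm
      · exact hs f hf a b hab
    · intro hs
      exact ⟨fun f hf a b hab => hs f (Set.mem_insert_of_mem _ hf) a b hab,
        hs e (Set.mem_insert _ _) u v he⟩
  rw [h2, ← pow_succ'] at h1
  exact Nat.pow_right_injective le_rfl h1

/-- a graph with a bridge -/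
theorem FP_bridge [Fintype V] [Fintype E] (ends : E → Sym2 V) (e : E) (u v : V)
    (he : ends e = s(u, v))
    (h : ¬ (SimpleGraph.fromEdgeSet (ends '' ({e}ᶜ : Set E))).Reachable u v) : FP ends = 0 := by
  classical
  rw [FP]
  have hu : (Finset.univ : Finset E) = insert e (Finset.univ.erase e) := by simp
  rw [hu, Finset.sum_powerset_insert (by simp), ← Finset.sum_add_distrib]
  apply Finset.sum_eq_zero
  intro A hA
  rw [Finset.mem_powerset] at hA
  have heA : e ∉ A := fun h => by simpa using hA h
  have hsub : (A : Set E) ⊆ ({e}ᶜ : Set E) := by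
    intro f hf
    simp only [Set.mem_compl_iff, Set.mem_singleton_iff]
    rintro rfl
    exact heA (by exact_mod_cast hf)
  have hnr : ¬ (SimpleGraph.fromEdgeSet (ends '' (A : Set E))).Reachable u v := by
    intro hr
    exact h (hr.mono (SimpleGraph.fromEdgeSet_mono (Set.image_mono hsub)))
  have hk := kc_insert ends (A : Set E) e u v he hnr
  rw [Finset.coe_insert, Finset.card_insert_of_notMem heA]
  have hlt : A.card < Fintype.card E := by
    have := Finset.card_lt_card (Finset.ssubset_univ_iff.2 (fun h : A = univ => heA (h ▸ Finset.mem_univ e)))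
    simpa using this
  obtain ⟨r, hr⟩ : ∃ r, Fintype.card E = A.card + 1 + r := ⟨Fintype.card E - (A.card + 1), by omega⟩
  have e1 : Fintype.card E - A.card = r + 1 := by omega
  have e2 : Fintype.card E - (A.card + 1) = r := by omega
  have e3 : A.card + 1 + kc ends (insert e (A : Set E)) = A.card + kc ends (A : Set E) := by omega
  rw [e1, e2, e3, pow_succ]
  ring

/-- identification of two vertices in different components -/
def merge [DecidableEq V] (u v : V) (huv : u ≠ v) (w : V) : {w : V // w ≠ v} :=
  if h : w = v then ⟨u, huv⟩ else ⟨w, h⟩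

theorem kc_merge [Finite V] [DecidableEq V] (ends : E → Sym2 V) (A : Set E) (u v : V) (huv : u ≠ v)
    (h : ¬ (SimpleGraph.fromEdgeSet (ends '' A)).Reachable u v) :
    kc ends A = kc (fun e => (ends e).map (merge u v huv)) A + 1 := by
  classical
  have h1 := halve (KA ends A) u v (exists_sep ends A u v h)
  rw [card_KA] at h1
  have h2 : Nat.card {s : V → ZMod 2 // s ∈ KA ends A ∧ s u = s v} =
      2 ^ kc (fun e => (ends e).map (merge u v huv)) A := by
    rw [← card_KA]
    apply Nat.card_congr
    refine
      { toFun := fun s => ⟨fun w => s.1 w.1, ?_⟩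
        invFun := fun t => ⟨fun w => t.1 (merge u v huv w), ?_, ?_⟩
        left_inv := ?_
        right_inv := ?_ }
    · intro e he a b hab
      obtain ⟨x, y, hxy⟩ : ∃ x y, ends e = s(x, y) := by
        induction hz : ends e using Sym2.ind with
        | _ x y => exact ⟨x, y, rfl⟩
      have hs := s.2.1 e he x y hxy
      have hm : ∀ w, s.1 (merge u v huv w).1 = s.1 w := by
        intro w
        by_cases hw : w = v
        · rw [merge, dif_pos hw, hw]; exact s.2.2
        · rw [merge, dif_neg hw]
      change (ends e).map (merge u v huv) = s(a, b) at hab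
      rw [hxy, Sym2.map_mk, Sym2.eq_iff] at hab
      rcases hab with ⟨rfl, rfl⟩ | ⟨rfl, rfl⟩
      · show s.1 (merge u v huv x).1 = s.1 (merge u v huv y).1
        rw [hm, hm, hs]
      · show s.1 (merge u v huv y).1 = s.1 (merge u v huv x).1
        rw [hm, hm, hs]
    · intro e he a b hab
      apply t.2 e he
      show (ends e).map (merge u v huv) = _
      rw [hab, Sym2.map_mk]
    · show t.1 (merge u v huv u) = t.1 (merge u v huv v)
      rw [merge, merge, dif_neg huv, dif_pos rfl]
    · intro s
      ext w
      show s.1 (merge u v huv w).1 = s.1 w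
      by_cases hw : w = v
      · rw [merge, dif_pos hw, hw]; exact s.2.2
      · rw [merge, dif_neg hw]
    · intro t
      ext w
      show t.1 (merge u v huv w.1) = t.1 w
      rw [merge, dif_neg w.2]
  rw [h2, ← pow_succ'] at h1
  exact Nat.pow_right_injective le_rfl h1

theorem FP_merge [Fintype V] [Fintype E] [DecidableEq V] (ends : E → Sym2 V) (u v : V) (huv : u ≠ v)
    (h : ¬ (SimpleGraph.fromEdgeSet (Set.range ends)).Reachable u v) :
    FP (fun e => (ends e).map (merge u v huv)) = FP ends := by
  rw [FP, FP]
  refine Finset.sum_congr rfl fun A _ => ?_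
  have hnr : ¬ (SimpleGraph.fromEdgeSet (ends '' (A : Set E))).Reachable u v := by
    intro hr
    exact h (hr.mono (SimpleGraph.fromEdgeSet_mono (Set.image_subset_range _ _)))
  have hk := kc_merge ends (A : Set E) u v huv hnr
  have hc : Fintype.card {w : V // w ≠ v} + 1 = Fintype.card V := by
    have h1 := Fintype.card_subtype_compl (fun w : V => w = v)
    have h2 : Fintype.card {w : V // w = v} = 1 := Fintype.card_unique
    have h3 : 0 < Fintype.card V := Fintype.card_pos_iff.2 ⟨v⟩
    have h4 : Fintype.card {w : V // w ≠ v} = Fintype.card V - 1 := by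
      rw [← h2, ← h1]
    omega
  congr 2
  omega

/-- under the frozen positivity hypothesis every value is nonnegative -/
theorem nonneg_of (H : ∀ (V E : Type) [Fintype V] [Fintype E] (ends : E → Sym2 V),
      (SimpleGraph.fromEdgeSet (Set.range ends)).Connected →
      (∀ e : E, (SimpleGraph.fromEdgeSet (ends '' ({e}ᶜ : Set E))).Connected) →
      0 < ∑ A ∈ (Finset.univ : Finset E).powerset,
            (-1 : ℝ) ^ (Fintype.card E - A.card) *
              (11 / 2 : ℝ) ^ ((A.card +
                Nat.card (SimpleGraph.fromEdgeSet (ends '' (A : Set E))).ConnectedComponent)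
                  - Fintype.card V)) (n : ℕ) :
    ∀ (V E : Type) [Fintype V] [Fintype E] (ends : E → Sym2 V), Fintype.card V = n →
      0 ≤ FP ends := by
  classical
  induction n with
  | zero =>
    intro V E _ _ ends hV
    have : IsEmpty V := Fintype.card_eq_zero_iff.1 hV
    have : IsEmpty E := ⟨fun e => by
      induction hz : ends e using Sym2.ind with
      | _ x y => exact isEmptyElim x⟩
    rw [FP]
    apply Finset.sum_nonneg
    intro A _
    have : Fintype.card E - A.card = 0 := by
      rw [Fintype.card_eq_zero]; simp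
    rw [this]
    positivity
  | succ n ih =>
    intro V E _ _ ends hV
    have : Nonempty V := Fintype.card_pos_iff.1 (by omega)
    by_cases hc : (SimpleGraph.fromEdgeSet (Set.range ends)).Connected
    · by_cases hb : ∀ e : E, (SimpleGraph.fromEdgeSet (ends '' ({e}ᶜ : Set E))).Connected
      · exact (H V E ends hc hb).le
      · push Not at hb
        obtain ⟨e, he⟩ := hb
        obtain ⟨u, v, huv⟩ : ∃ u v, ends e = s(u, v) := by
          induction hz : ends e using Sym2.ind with
          | _ x y => exact ⟨x, y, rfl⟩
        have hr : ¬ (SimpleGraph.fromEdgeSet (ends '' ({e}ᶜ : Set E))).Reachable u v := by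
          intro hr
          apply he
          refine SimpleGraph.Connected.mk ?_
          intro a b
          obtain ⟨p⟩ := hc.preconnected a b
          induction p with
          | nil => rfl
          | cons hadj _ ih2 =>
            refine SimpleGraph.Reachable.trans ?_ ih2
            rw [SimpleGraph.fromEdgeSet_adj] at hadj
            obtain ⟨⟨f, hf⟩, hne⟩ := hadj
            by_cases hfe : f = e
            · subst hfe
              rw [huv, Sym2.eq_iff] at hf
              rcases hf with ⟨rfl, rfl⟩ | ⟨rfl, rfl⟩
              · exact hr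
              · exact hr.symm
            · exact reachable_of_edge ends _ (by simpa using hfe) hf
        rw [FP_bridge ends e u v huv hr]
    · have hnp : ¬ (SimpleGraph.fromEdgeSet (Set.range ends)).Preconnected := by
        intro hp
        exact hc (SimpleGraph.Connected.mk hp)
      obtain ⟨u, v, huv⟩ : ∃ u v, ¬ (SimpleGraph.fromEdgeSet (Set.range ends)).Reachable u v := by
        by_contra hcon
        push Not at hcon
        exact hnp hcon
      have hne : u ≠ v := by
        rintro rfl
        exact huv (SimpleGraph.Reachable.refl _)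
      rw [← FP_merge ends u v hne huv]
      apply ih
      have h1 := Fintype.card_subtype_compl (fun w : V => w = v)
      have h2 : Fintype.card {w : V // w = v} = 1 := Fintype.card_unique
      have h4 : Fintype.card {w : V // w ≠ v} = Fintype.card V - 1 := by
        rw [← h2, ← h1]
      omega

end formula

/-- there is a multigraph with a negative value -/
theorem exists_neg_value : ∃ (n k : ℕ) (src tgt : Fin k → Fin n),
    FP (fun e => s(src e, tgt e)) < 0 := by
  have h1 := Cert.neg_cert (fun k => (dP k).eval (11 / 2)) (by simp [dP_zero]) (dP_succ_eval (11 / 2))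
  have h2 := poly_identity 169 (by norm_num) (11 / 2)
  have h3 : (((pairings (3 * 169) (hlist (2 * 169))).map
      (fun L => ((QL L).map (Int.castRingHom ℚ)).eval (11 / 2 : ℚ))).sum) < 0 := by
    rw [h2]
    exact mul_neg_of_pos_of_neg (by positivity) h1
  obtain ⟨y, hy, hy0⟩ := exists_neg _ h3
  rw [List.mem_map] at hy
  obtain ⟨L, _, rfl⟩ := hy
  refine ⟨2 * 169, L.length, lsrc L, ltgt L, ?_⟩
  rw [FP_eq_eval, ← QL_eq]
  exact_mod_cast hy0

end Pool.Agent.H841R2.FlowHalf
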